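import Pool.Agent.N658.TP.Stm4
import Pool.Agent.N134.TP.Ref
import Pool.Agent.Y331.PE.EnergyA
import Pool.Agent.Y155.PE.Cut

/-! # Energies on multiples of a torus -/

set_option autoImplicit false
set_option linter.unusedSectionVars false

open scoped BigOperators ComplexConjugate

noncomputable section

namespace Pool.Agent.N711.TP.EnMul

open Pool.Agent.Y738.PE Pool.Agent.N658.TP
open Pool.Agent.N134.TP.Ref (tileE put_tile tile_lt bpos kpos sum_prod)

section abs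

variable {S T β γ : Type} [Fintype S] [Fintype T] [DecidableEq T] [Fintype β] [DecidableEq β]
  [DecidableEq S] [Fintype γ]

lemma prod_nrm (e : S ≃ (T → β)) (G : β → ℂ) (hG : nrm G = 1) :
    nrm (fun s => ∏ t, G (e s t)) = 1 := by
  unfold nrm at hG ⊢
  have h1 : ∀ s : S, ‖∏ t, G (e s t)‖ ^ 2 = ∏ t, ‖G (e s t)‖ ^ 2 := by
    intro s
    rw [norm_prod, Finset.prod_pow]
  simp only [h1]
  rw [e.sum_comp (fun f => ∏ t, ‖G (f t)‖ ^ 2)]
  have h2 := Finset.prod_univ_sum (fun _ : T => (Finset.univ : Finset β))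
    (fun (_ : T) x => ‖G x‖ ^ 2)
  rw [Fintype.piFinset_univ] at h2
  rw [← h2]
  simp [hG]

lemma prod_exp (e : S ≃ (T → β)) (G : β → ℂ) (hG : nrm G = 1) (t : T) (bx : β → γ)
    (pt : β → γ → β) (B : γ → γ → ℂ) :
    ∑ s : S, ∑ τ : γ, conj (∏ t', G (e s t')) * B (bx (e s t)) τ *
      (∏ t', G (e (e.symm (Function.update (e s) t (pt (e s t) τ))) t')) =
    ∑ x : β, ∑ τ : γ, conj (G x) * B (bx x) τ * G (pt x τ) := by
  have hG' : ∑ x, conj (G x) * G x = 1 := by
    have h1 : ((nrm G : ℝ) : ℂ) = 1 := by rw [hG]; simp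
    rw [← h1]
    unfold nrm
    rw [Complex.ofReal_sum]
    refine Finset.sum_congr rfl fun x _ => ?_
    rw [mul_comm, Complex.mul_conj, Complex.normSq_eq_norm_sq]
  set F : T → β → ℂ := fun t' x => if t' = t then
    ∑ τ : γ, conj (G x) * B (bx x) τ * G (pt x τ) else conj (G x) * G x with hF
  have h1 : ∀ s : S, ∑ τ : γ, conj (∏ t', G (e s t')) * B (bx (e s t)) τ *
      (∏ t', G (e (e.symm (Function.update (e s) t (pt (e s t) τ))) t')) =
      ∏ t', F t' (e s t') := by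
    intro s
    rw [← Finset.mul_prod_erase Finset.univ (fun t' => F t' (e s t')) (Finset.mem_univ t)]
    have h2 : F t (e s t) = ∑ τ : γ, conj (G (e s t)) * B (bx (e s t)) τ * G (pt (e s t) τ) := by
      simp only [hF, if_true]
    have h3 : ∏ t' ∈ Finset.univ.erase t, F t' (e s t') =
        conj (∏ t' ∈ Finset.univ.erase t, G (e s t')) * ∏ t' ∈ Finset.univ.erase t, G (e s t') := by
      rw [map_prod, ← Finset.prod_mul_distrib]
      refine Finset.prod_congr rfl fun t' ht' => ?_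
      simp only [hF, if_neg (Finset.ne_of_mem_erase ht')]
    rw [h2, h3, Finset.sum_mul]
    refine Finset.sum_congr rfl fun τ _ => ?_
    rw [← Finset.mul_prod_erase Finset.univ (fun t' => G (e s t')) (Finset.mem_univ t),
      ← Finset.mul_prod_erase Finset.univ
        (fun t' => G (e (e.symm (Function.update (e s) t (pt (e s t) τ))) t'))
        (Finset.mem_univ t)]
    rw [Equiv.apply_symm_apply, Function.update_self, map_mul]
    have h4 : ∏ t' ∈ Finset.univ.erase t, G (Function.update (e s) t (pt (e s t) τ) t') =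
        ∏ t' ∈ Finset.univ.erase t, G (e s t') := by
      refine Finset.prod_congr rfl fun t' ht' => ?_
      rw [Function.update_of_ne (Finset.ne_of_mem_erase ht')]
    rw [h4]
    ring
  rw [Finset.sum_congr rfl fun s _ => h1 s, sum_prod e F,
    ← Finset.mul_prod_erase Finset.univ (fun t' => ∑ x, F t' x) (Finset.mem_univ t)]
  have h5 : ∏ t' ∈ Finset.univ.erase t, ∑ x, F t' x = 1 := by
    refine Finset.prod_eq_one fun t' ht' => ?_
    simp only [hF, if_neg (Finset.ne_of_mem_erase ht')]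
    exact hG'
  rw [h5, mul_one]
  simp only [hF, if_true]

end abs

section box

variable {d L m q : ℕ} [NeZero L]

lemma box_sub (s : Conf d L) (c : Site L) (p : ℕ × ℕ) (h : p.1 + q ≤ m ∧ p.2 + q ≤ m) :
    box q s (c.1 + ((p.1 : ℕ) : ZMod L), c.2 + ((p.2 : ℕ) : ZMod L)) = subBox (box m s c) p h := by
  funext z
  simp only [box, subBox, Nat.cast_add, add_assoc]

lemma put_sub (hm : m ≤ L) (s : Conf d L) (c : Site L) (p : ℕ × ℕ)
    (h : p.1 + q ≤ m ∧ p.2 + q ≤ m) (τ : BConf d q) :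
    put s (c.1 + ((p.1 : ℕ) : ZMod L), c.2 + ((p.2 : ℕ) : ZMod L)) τ =
      put s c (subPut (box m s c) p τ) := by
  funext w
  have i1 := Pool.Agent.Y155.PE.val4 (m := L) (a := p.1) (r := q) (by omega) (w.1 - c.1)
  have i2 := Pool.Agent.Y155.PE.val4 (m := L) (a := p.2) (r := q) (by omega) (w.2 - c.2)
  have e1 : w.1 - (c.1 + ((p.1 : ℕ) : ZMod L)) = w.1 - c.1 - ((p.1 : ℕ) : ZMod L) := by ring
  have e2 : w.2 - (c.2 + ((p.2 : ℕ) : ZMod L)) = w.2 - c.2 - ((p.2 : ℕ) : ZMod L) := by ring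
  by_cases hc : (w.1 - (c.1 + ((p.1 : ℕ) : ZMod L))).val < q ∧
      (w.2 - (c.2 + ((p.2 : ℕ) : ZMod L))).val < q
  · have hc1 : p.1 ≤ (w.1 - c.1).val ∧ (w.1 - c.1).val < p.1 + q := i1.1 (by rw [← e1]; exact hc.1)
    have hc2 : p.2 ≤ (w.2 - c.2).val ∧ (w.2 - c.2).val < p.2 + q := i2.1 (by rw [← e2]; exact hc.2)
    have hd : (w.1 - c.1).val < m ∧ (w.2 - c.2).val < m := ⟨by omega, by omega⟩
    simp only [put, subPut]
    rw [dif_pos hc, dif_pos hd, dif_pos ⟨hc1, hc2⟩]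
    have j1 := Pool.Agent.Y155.PE.val3 (m := L) (a := p.1) (r := q) (by omega) (w.1 - c.1) hc1.1 hc1.2
    have j2 := Pool.Agent.Y155.PE.val3 (m := L) (a := p.2) (r := q) (by omega) (w.2 - c.2) hc2.1 hc2.2
    simp only [e1, e2, j1, j2]
  · have hc' : ¬ ((p.1 ≤ (w.1 - c.1).val ∧ (w.1 - c.1).val < p.1 + q) ∧
        (p.2 ≤ (w.2 - c.2).val ∧ (w.2 - c.2).val < p.2 + q)) := by
      rintro ⟨k1, k2⟩
      exact hc ⟨by rw [e1]; exact i1.2 k1, by rw [e2]; exact i2.2 k2⟩
    simp only [put, subPut]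
    rw [dif_neg hc]
    by_cases hd : (w.1 - c.1).val < m ∧ (w.2 - c.2).val < m
    · rw [dif_pos hd, dif_neg hc']
      simp only [box, ZMod.natCast_zmod_val]
      congr 1
      ext <;> simp
    · rw [dif_neg hd]

end box

section tile

variable {d m j q : ℕ} [NeZero m] [NeZero (m * j)]

/-- the product vector -/
def psi (φ : Conf d m → ℂ) : Conf d (m * j) → ℂ := prodV (fun _ σ => φ (glue σ))

lemma psi_nrm (φ : Conf d m → ℂ) (hφ : nrm φ = 1) : nrm (psi (j := j) φ) = 1 := by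
  have h1 : nrm (fun σ : BConf d m => φ (glue σ)) = 1 := by
    rw [(Pool.Agent.Y155.PE.cut d m 0 φ (0, 0) ⟨by simp, by simp⟩ (fun _ _ => 0)).1]
    exact hφ
  exact prod_nrm tileE (fun σ : BConf d m => φ (glue σ)) h1

lemma psi_exp (hq : 0 < q) (φ : Conf d m → ℂ) (hφ : nrm φ = 1) (t : Fin j × Fin j) (p : ℕ × ℕ)
    (h : p.1 + q ≤ m ∧ p.2 + q ≤ m) (B : BConf d q → BConf d q → ℂ) :
    expec (psi (j := j) φ) ((crn t).1 + ((p.1 : ℕ) : ZMod (m * j)),
      (crn t).2 + ((p.2 : ℕ) : ZMod (m * j))) B =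
    expec φ (((p.1 : ℕ) : ZMod m), ((p.2 : ℕ) : ZMod m)) B := by
  have h0 := Pool.Agent.Y155.PE.cut d m q φ p h B
  rw [← h0.2 hq]
  have h1 : nrm (fun σ : BConf d m => φ (glue σ)) = 1 := by rw [h0.1]; exact hφ
  have hk : 0 < j := kpos m j
  have hmj : m ≤ m * j := Nat.le_mul_of_pos_right m hk
  have h2 := prod_exp (tileE (d := d) (b := m) (k := j)) (fun σ : BConf d m => φ (glue σ)) h1 t
    (fun σ => subBox σ p h) (fun σ τ => subPut σ p τ) B
  unfold expecBlock
  rw [← h2]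
  unfold expec
  refine Finset.sum_congr rfl fun s _ => Finset.sum_congr rfl fun τ _ => ?_
  rw [box_sub (m := m) s (crn t) p h, put_sub hmj s (crn t) p h τ, put_tile]
  rfl

/-- positions and tiles, one coordinate -/
def sE : Fin j × Fin m ≃ ZMod (m * j) where
  toFun x := ((m * (x.1 : ℕ) : ℕ) : ZMod (m * j)) + ((x.2 : ℕ) : ZMod (m * j))
  invFun w := (⟨w.val / m, Nat.div_lt_of_lt_mul (ZMod.val_lt w)⟩,
    ⟨w.val % m, Nat.mod_lt _ (bpos m j)⟩)
  left_inv x := by
    have hb : 0 < m := bpos m j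
    have h1 : (((m * (x.1 : ℕ) : ℕ) : ZMod (m * j)) + (((x.2 : ℕ)) : ZMod (m * j))).val =
        m * x.1 + x.2 := Pool.Agent.Y155.PE.val1 (tile_lt x.1.2 x.2.2)
    have h3 : (m * (x.1 : ℕ) + x.2) / m = x.1 := by
      rw [Nat.mul_add_div hb, Nat.div_eq_of_lt x.2.2, add_zero]
    have h5 : (m * (x.1 : ℕ) + x.2) % m = x.2 := by
      rw [Nat.mul_add_mod, Nat.mod_eq_of_lt x.2.2]
    ext
    · simp only [h1, h3]
    · simp only [h1, h5]
  right_inv w := by
    simp only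
    rw [← Nat.cast_add, Nat.div_add_mod, ZMod.natCast_zmod_val]

/-- positions and tiles -/
def SE : (Fin j × Fin j) × (Fin m × Fin m) ≃ Site (m * j) :=
  (Equiv.prodProdProdComm (Fin j) (Fin j) (Fin m) (Fin m)).trans (sE.prodCongr sE)

lemma SE_apply (t : Fin j × Fin j) (p : Fin m × Fin m) :
    SE (t, p) = ((crn t).1 + ((p.1 : ℕ) : ZMod (m * j)),
      (crn t).2 + ((p.2 : ℕ) : ZMod (m * j))) := rfl

end tile

open Classical in
lemma card_bad (m q : ℕ) :
    ∑ p : Fin m × Fin m, (if (p.1 : ℕ) + q ≤ m ∧ (p.2 : ℕ) + q ≤ m then (0 : ℝ) else 1) ≤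
      2 * q * m := by
  have h1 : ∀ p : Fin m × Fin m, (if (p.1 : ℕ) + q ≤ m ∧ (p.2 : ℕ) + q ≤ m then (0 : ℝ) else 1) ≤
      (if (p.1 : ℕ) + q ≤ m then (0 : ℝ) else 1) + (if (p.2 : ℕ) + q ≤ m then (0 : ℝ) else 1) := by
    intro p
    by_cases a : (p.1 : ℕ) + q ≤ m <;> by_cases b : (p.2 : ℕ) + q ≤ m <;> simp [a, b]
  have h2 : ∑ i : Fin m, (if (i : ℕ) + q ≤ m then (0 : ℝ) else 1) ≤ q := by
    have h3 : ∑ i : Fin m, (if (i : ℕ) + q ≤ m then (0 : ℝ) else 1) =
        (((Finset.univ : Finset (Fin m)).filter (fun i : Fin m => ¬ (i : ℕ) + q ≤ m)).card : ℝ) := by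
      rw [Finset.card_filter]
      push_cast
      refine Finset.sum_congr rfl fun i _ => ?_
      by_cases a : (i : ℕ) + q ≤ m <;> simp [a]
    rw [h3]
    have h4 : ((Finset.univ : Finset (Fin m)).filter (fun i : Fin m => ¬ (i : ℕ) + q ≤ m)).card ≤
        (Finset.range q).card := by
      apply Finset.card_le_card_of_injOn (fun i : Fin m => m - 1 - (i : ℕ))
      · intro i hi
        have h5 := (Finset.mem_filter.1 hi).2
        have h6 := i.2
        simp only [Finset.coe_range, Set.mem_Iio]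
        omega
      · intro i _ i' _ hii
        have h6 := i.2
        have h7 := i'.2
        simp only at hii
        ext
        omega
    rw [Finset.card_range] at h4
    exact_mod_cast h4
  calc ∑ p : Fin m × Fin m, (if (p.1 : ℕ) + q ≤ m ∧ (p.2 : ℕ) + q ≤ m then (0 : ℝ) else 1)
      ≤ ∑ p : Fin m × Fin m, ((if (p.1 : ℕ) + q ≤ m then (0 : ℝ) else 1) +
        (if (p.2 : ℕ) + q ≤ m then (0 : ℝ) else 1)) := Finset.sum_le_sum fun p _ => h1 p
    _ = m * (∑ i : Fin m, (if (i : ℕ) + q ≤ m then (0 : ℝ) else 1)) +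
        m * (∑ i : Fin m, (if (i : ℕ) + q ≤ m then (0 : ℝ) else 1)) := by
        rw [Finset.sum_add_distrib,
          Fintype.sum_prod_type' (fun (a _ : Fin m) => if (a : ℕ) + q ≤ m then (0 : ℝ) else 1),
          Fintype.sum_prod_type' (fun (_ b : Fin m) => if (b : ℕ) + q ≤ m then (0 : ℝ) else 1)]
        simp only [Finset.sum_const, Finset.card_univ, Fintype.card_fin, nsmul_eq_mul,
          Finset.mul_sum]
    _ ≤ m * q + m * q := by gcongr
    _ = 2 * q * m := by ring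

theorem enMul : StmEnMul := by
  classical
  intro d q hd hq h hh
  have hE0 : 0 ≤ entrySum h := Finset.sum_nonneg fun _ _ => Finset.sum_nonneg fun _ _ =>
    norm_nonneg _
  refine ⟨4 * q * entrySum h + 1, by positivity, ?_⟩
  intro m j _ _ hqm φ hφ
  refine ⟨psi φ, psi_nrm φ hφ, ?_⟩
  have hk : 0 < j := kpos m j
  have hmj : m ≤ m * j := Nat.le_mul_of_pos_right m hk
  have hψ := psi_nrm (j := j) φ hφ
  unfold en
  rw [Pool.Agent.Y331.PE.sum_eq, Pool.Agent.Y331.PE.sum_eq, Complex.re_sum, Complex.re_sum]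
  rw [← SE.sum_comp (fun v => (expec (psi φ) v h).re), Fintype.sum_prod_type]
  have h1 : ∀ (t : Fin j × Fin j) (p : Fin m × Fin m), (expec (psi φ) (SE (t, p)) h).re ≤
      (expec φ (((p.1 : ℕ) : ZMod m), ((p.2 : ℕ) : ZMod m)) h).re + 2 * entrySum h *
        (if (p.1 : ℕ) + q ≤ m ∧ (p.2 : ℕ) + q ≤ m then (0 : ℝ) else 1) := by
    intro t p
    by_cases hp : (p.1 : ℕ) + q ≤ m ∧ (p.2 : ℕ) + q ≤ m
    · rw [if_pos hp, mul_zero, add_zero, SE_apply,
        psi_exp hq φ hφ t ((p.1 : ℕ), (p.2 : ℕ)) hp h]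
    · rw [if_neg hp, mul_one]
      have k1 := Pool.Agent.Y331.PE.crude (hqm.trans hmj) h (psi φ) (SE (t, p))
      have k2 := Pool.Agent.Y331.PE.crude hqm h φ (((p.1 : ℕ) : ZMod m), ((p.2 : ℕ) : ZMod m))
      rw [hψ, mul_one] at k1
      rw [hφ, mul_one] at k2
      have k3 := (abs_le.1 ((Complex.abs_re_le_norm _).trans k1)).2
      have k4 := (abs_le.1 ((Complex.abs_re_le_norm _).trans k2)).1
      linarith
  have h2 : ∑ p : Fin m × Fin m, (expec φ (((p.1 : ℕ) : ZMod m), ((p.2 : ℕ) : ZMod m)) h).re =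
      ∑ v : Site m, (expec φ v h).re :=
    ((Pool.Agent.Y155.PE.eF m).prodCongr (Pool.Agent.Y155.PE.eF m)).sum_comp
      (fun v : Site m => (expec φ v h).re)
  calc ∑ t : Fin j × Fin j, ∑ p : Fin m × Fin m, (expec (psi φ) (SE (t, p)) h).re
      ≤ ∑ _t : Fin j × Fin j, ∑ p : Fin m × Fin m,
        ((expec φ (((p.1 : ℕ) : ZMod m), ((p.2 : ℕ) : ZMod m)) h).re + 2 * entrySum h *
        (if (p.1 : ℕ) + q ≤ m ∧ (p.2 : ℕ) + q ≤ m then (0 : ℝ) else 1)) :=
        Finset.sum_le_sum fun t _ => Finset.sum_le_sum fun p _ => h1 t p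
    _ = (j : ℝ) ^ 2 * (∑ v : Site m, (expec φ v h).re + 2 * entrySum h *
        ∑ p : Fin m × Fin m, (if (p.1 : ℕ) + q ≤ m ∧ (p.2 : ℕ) + q ≤ m then (0 : ℝ) else 1)) := by
        rw [Finset.sum_const, Finset.card_univ, Fintype.card_prod, Fintype.card_fin, nsmul_eq_mul,
          Finset.sum_add_distrib, ← Finset.mul_sum, h2]
        push_cast
        ring
    _ ≤ (j : ℝ) ^ 2 * (∑ v : Site m, (expec φ v h).re + (4 * q * entrySum h + 1) * m) := by
        have k5 := card_bad m q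
        have k6 : 2 * entrySum h * ∑ p : Fin m × Fin m,
            (if (p.1 : ℕ) + q ≤ m ∧ (p.2 : ℕ) + q ≤ m then (0 : ℝ) else 1) ≤
            2 * entrySum h * (2 * q * m) := mul_le_mul_of_nonneg_left k5 (by positivity)
        have k7 : (0 : ℝ) ≤ m := Nat.cast_nonneg m
        refine mul_le_mul_of_nonneg_left ?_ (by positivity)
        nlinarith

end Pool.Agent.N711.TP.EnMul
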